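import Pool.Agent.R951.FH.Stm

/-!
# Norm of permutations (FH-NORM)

The orbit count is adapted from `Pool.Agent.R134.TB1`.
-/

set_option autoImplicit false

namespace Pool.Agent.R730.FHNorm

open Equiv Finset Pool.Agent.R951.FH

variable {α : Type} [Fintype α] [DecidableEq α]

lemma card_quot (π : Perm α) :
    Nat.card (Quotient (Perm.SameCycle.setoid π)) =
      π.cycleFactorsFinset.card + (Fintype.card α - π.support.card) := by
  have h1 : (Fintype.card α - π.support.card) = Fintype.card {x : α // x ∉ π.support} := by
    rw [Fintype.card_subtype_compl, Fintype.card_coe]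
  rw [h1, ← Fintype.card_coe, ← Fintype.card_sum, ← Nat.card_eq_fintype_card]
  let φ : α → π.cycleFactorsFinset ⊕ {x : α // x ∉ π.support} := fun x =>
    if h : x ∈ π.support then Sum.inl ⟨π.cycleOf x, Perm.cycleOf_mem_cycleFactorsFinset_iff.mpr h⟩
    else Sum.inr ⟨x, h⟩
  have hφ : ∀ x y, φ x = φ y ↔ Perm.SameCycle π x y := by
    intro x y
    simp only [φ]
    by_cases hx : x ∈ π.support <;> by_cases hy : y ∈ π.support
    · rw [dif_pos hx, dif_pos hy]
      simp only [Sum.inl.injEq, Subtype.mk.injEq]
      constructor
      · intro h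
        have h2 : y ∈ (π.cycleOf x).support := by
          rw [h, Perm.mem_support_cycleOf_iff]
          exact ⟨Perm.SameCycle.refl _ _, hy⟩
        rw [Perm.mem_support_cycleOf_iff] at h2
        exact h2.1
      · intro h
        exact h.cycleOf_eq
    · rw [dif_pos hx, dif_neg hy]
      constructor
      · intro h
        simp at h
      · intro h
        exfalso
        rw [Perm.notMem_support] at hy
        have := (Perm.SameCycle.symm h).eq_of_left hy
        rw [this] at hy
        exact (Perm.mem_support.mp hx) hy
    · rw [dif_neg hx, dif_pos hy]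
      constructor
      · intro h
        simp at h
      · intro h
        exfalso
        rw [Perm.notMem_support] at hx
        have := h.eq_of_left hx
        rw [this] at hx
        exact (Perm.mem_support.mp hy) hx
    · rw [dif_neg hx, dif_neg hy]
      simp only [Sum.inr.injEq, Subtype.mk.injEq]
      constructor
      · rintro rfl
        exact Perm.SameCycle.refl _ _
      · intro h
        exact h.eq_of_left (Perm.notMem_support.mp hx)
  have hsurj : Function.Surjective φ := by
    rintro (⟨c, hc⟩ | ⟨x, hx⟩)
    · have hc' := Perm.mem_cycleFactorsFinset_iff.mp hc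
      obtain ⟨x, hx⟩ := hc'.1.nonempty_support
      refine ⟨x, ?_⟩
      have hcx : c = π.cycleOf x := Perm.cycle_is_cycleOf hx hc
      have hxs : x ∈ π.support := Perm.mem_cycleFactorsFinset_support_le hc hx
      simp only [φ]
      rw [dif_pos hxs]
      simp only [Sum.inl.injEq, Subtype.mk.injEq]
      exact hcx.symm
    · refine ⟨x, ?_⟩
      simp only [φ]
      rw [dif_neg hx]
  let ψ : Quotient (Perm.SameCycle.setoid π) → π.cycleFactorsFinset ⊕ {x : α // x ∉ π.support} :=
    Quotient.lift φ (fun a b h => (hφ a b).mpr h)
  apply Nat.card_congr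
  apply Equiv.ofBijective ψ
  constructor
  · intro a b
    induction a using Quotient.inductionOn
    induction b using Quotient.inductionOn
    intro h
    exact Quotient.sound ((hφ _ _).mp h)
  · intro y
    obtain ⟨x, hx⟩ := hsurj y
    exact ⟨Quotient.mk _ x, hx⟩


/-- The functions constant on the orbits of `σ`. -/
def Vs (σ : Perm α) : Submodule ℚ (α → ℚ) where
  carrier := {f | ∀ x, f (σ x) = f x}
  add_mem' := by
    intro a b ha hb x
    simp only [Pi.add_apply]
    rw [ha x, hb x]
  zero_mem' := by
    intro x
    rfl
  smul_mem' := by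
    intro c f hf x
    simp only [Pi.smul_apply]
    rw [hf x]

lemma zpow_inv {σ : Perm α} {f : α → ℚ} (hf : f ∈ Vs σ) (i : ℤ) (x : α) :
    f ((σ ^ i) x) = f x := by
  have h1 : ∀ y, f (σ y) = f y := hf
  have h2 : ∀ y, f (σ⁻¹ y) = f y := by
    intro y
    have h3 := h1 (σ⁻¹ y)
    have h4 : σ (σ⁻¹ y) = y := by
      rw [← Perm.mul_apply, mul_inv_cancel, Perm.one_apply]
    rw [h4] at h3
    exact h3.symm
  induction i with
  | zero => simp
  | succ i ih =>
    rw [add_comm, zpow_add, zpow_one, Perm.mul_apply, h1, ih]
  | pred i ih =>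
    rw [sub_eq_add_neg, add_comm, zpow_add, zpow_neg, zpow_one, Perm.mul_apply, h2]
    exact ih

lemma same_inv {σ : Perm α} {f : α → ℚ} (hf : f ∈ Vs σ) {x y : α} (h : Perm.SameCycle σ x y) :
    f x = f y := by
  obtain ⟨i, rfl⟩ := h
  exact (zpow_inv hf i x).symm

/-- Functions constant on orbits are functions on the orbit space. -/
noncomputable def eqv (σ : Perm α) : (Vs σ) ≃ₗ[ℚ] (Quotient (Perm.SameCycle.setoid σ) → ℚ) where
  toFun f := Quotient.lift f.1 (fun _ _ h => same_inv f.2 h)
  map_add' := by
    intro f g
    funext q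
    induction q using Quotient.inductionOn
    rfl
  map_smul' := by
    intro c f
    funext q
    induction q using Quotient.inductionOn
    rfl
  invFun g := ⟨fun x => g (Quotient.mk _ x), by
    intro x
    have : (Quotient.mk (Perm.SameCycle.setoid σ) (σ x)) = Quotient.mk _ x :=
      Quotient.sound (Perm.sameCycle_apply_left.mpr (Perm.SameCycle.refl σ x))
    simp only [this]⟩
  left_inv := by
    intro f
    rfl
  right_inv := by
    intro g
    funext q
    induction q using Quotient.inductionOn
    rfl

lemma card_parts (σ : Perm α) :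
    Multiset.card σ.partition.parts = Multiset.card σ.cycleType +
      (Fintype.card α - σ.support.card) := by
  rw [Perm.parts_partition, Multiset.card_add, Multiset.card_replicate]

lemma finrank_Vs (σ : Perm α) :
    Module.finrank ℚ (Vs σ) = Multiset.card σ.partition.parts := by
  classical
  rw [LinearEquiv.finrank_eq (eqv σ), Module.finrank_fintype_fun_eq_card,
    ← Nat.card_eq_fintype_card, card_quot, card_parts, Perm.cycleType_def, Multiset.card_map]
  rfl

lemma finrank_le (σ : Perm α) : Module.finrank ℚ (Vs σ) ≤ Fintype.card α := by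
  have := Submodule.finrank_le (Vs σ)
  rwa [Module.finrank_fintype_fun_eq_card] at this

lemma nm_add (σ : Perm α) : nm σ + Module.finrank ℚ (Vs σ) = Fintype.card α := by
  have h := finrank_le σ
  unfold nm
  rw [← finrank_Vs]
  omega

lemma sum_map_sub (s : Multiset ℕ) (h : ∀ l ∈ s, 2 ≤ l) :
    ((s.map (fun l => l - 2)).map (fun k => k + 1)).sum + Multiset.card s = s.sum := by
  induction s using Multiset.induction_on with
  | empty => simp
  | cons a s ih =>
    have h1 := ih (fun l hl => h l (Multiset.mem_cons_of_mem hl))
    have h2 := h a (Multiset.mem_cons_self a s)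
    simp only [Multiset.map_cons, Multiset.sum_cons, Multiset.card_cons]
    omega

lemma sum_map_sub2 (s : Multiset ℕ) (h : ∀ l ∈ s, 2 ≤ l) :
    ((s.map (fun l => l - 2)).map (fun k => k + 2)).sum = s.sum := by
  induction s using Multiset.induction_on with
  | empty => simp
  | cons a s ih =>
    have h1 := ih (fun l hl => h l (Multiset.mem_cons_of_mem hl))
    have h2 := h a (Multiset.mem_cons_self a s)
    simp only [Multiset.map_cons, Multiset.sum_cons]
    omega

theorem main : S_NORM := by
  intro α _ _ σ τ
  have hsz : σ.support.card = size (tp σ) := by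
    unfold size tp
    rw [sum_map_sub2 _ (fun l hl => Perm.two_le_of_mem_cycleType hl), Perm.sum_cycleType]
  have hinf : Vs σ ⊓ Vs τ ≤ Vs (σ * τ) := by
    intro f hf x
    rw [Perm.mul_apply, hf.1, hf.2]
  have hs := Submodule.finrank_sup_add_finrank_inf_eq (Vs σ) (Vs τ)
  have hle : Module.finrank ℚ ↥(Vs σ ⊔ Vs τ) ≤ Fintype.card α := by
    have := Submodule.finrank_le (Vs σ ⊔ Vs τ)
    rwa [Module.finrank_fintype_fun_eq_card] at this
  have hmono := Submodule.finrank_mono hinf
  have n1 := nm_add σ
  have n2 := nm_add τ
  have n3 := nm_add (σ * τ)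
  refine ⟨?_, hsz, by omega, ?_⟩
  · have h1 := sum_map_sub σ.cycleType (fun l hl => Perm.two_le_of_mem_cycleType hl)
    have h2 := Perm.sum_cycleType σ
    have h3 := card_parts σ
    have h4 : σ.support.card ≤ Fintype.card α := Finset.card_le_univ _
    unfold nm N tp
    omega
  · intro heq x
    have he : Vs σ ⊓ Vs τ = Vs (σ * τ) := by
      apply Submodule.eq_of_le_of_finrank_le hinf
      omega
    have hf : (fun y => if Perm.SameCycle (σ * τ) x y then (1 : ℚ) else 0) ∈ Vs (σ * τ) := by
      intro y
      simp only [Perm.sameCycle_apply_right]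
    rw [← he] at hf
    have h2 := hf.1 x
    simp only [Perm.SameCycle.refl, if_true] at h2
    by_contra hcon
    rw [if_neg hcon] at h2
    exact zero_ne_one h2

end Pool.Agent.R730.FHNorm
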