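import Pool.Agent.R951.FH.Stm

/-!
# Products over a disjoint union of point sets (FH-SPLIT)
-/

set_option autoImplicit false

namespace Pool.Agent.R730.FHSplit

open Equiv Finset Pool.Agent.R951.FH

section

variable {α β : Type} [Fintype α] [DecidableEq α] [Fintype β] [DecidableEq β]

lemma cycleType_inl (π : Perm α) :
    (Perm.sumCongr π (1 : Perm β)).cycleType = π.cycleType := by
  classical
  have h : Perm.sumCongr π (1 : Perm β) =
      π.extendDomain (Equiv.ofInjective (Sum.inl : α → α ⊕ β) Sum.inl_injective) := by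
    ext x
    rcases x with a | b
    · have := Perm.extendDomain_apply_image π
        (Equiv.ofInjective (Sum.inl : α → α ⊕ β) Sum.inl_injective) a
      simp only [Equiv.ofInjective_apply] at this
      rw [this]
      rfl
    · rw [Perm.extendDomain_apply_not_subtype]
      · rfl
      · simp
  rw [h, Perm.cycleType_extendDomain]

lemma cycleType_inr (ρ : Perm β) :
    (Perm.sumCongr (1 : Perm α) ρ).cycleType = ρ.cycleType := by
  classical
  have h : Perm.sumCongr (1 : Perm α) ρ =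
      ρ.extendDomain (Equiv.ofInjective (Sum.inr : β → α ⊕ β) Sum.inr_injective) := by
    ext x
    rcases x with a | b
    · rw [Perm.extendDomain_apply_not_subtype]
      · rfl
      · simp
    · have := Perm.extendDomain_apply_image ρ
        (Equiv.ofInjective (Sum.inr : β → α ⊕ β) Sum.inr_injective) b
      simp only [Equiv.ofInjective_apply] at this
      rw [this]
      rfl
  rw [h, Perm.cycleType_extendDomain]

lemma tp_sum (π : Perm α) (ρ : Perm β) : tp (Perm.sumCongr π ρ) = tp π + tp ρ := by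
  have h1 : Perm.sumCongr π ρ = Perm.sumCongr π 1 * Perm.sumCongr 1 ρ := by
    rw [Perm.sumCongr_mul, mul_one, one_mul]
  have h2 : Perm.Disjoint (Perm.sumCongr π (1 : Perm β)) (Perm.sumCongr (1 : Perm α) ρ) := by
    intro x
    rcases x with a | b
    · right
      rfl
    · left
      rfl
  unfold tp
  rw [h1, h2.cycleType_mul, cycleType_inl, cycleType_inr, Multiset.map_add]

lemma zpow_sum (π : Perm α) (ρ : Perm β) (i : ℤ) :
    (Perm.sumCongr π ρ) ^ i = Perm.sumCongr (π ^ i) (ρ ^ i) := by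
  have h : ∀ (a : Perm α) (b : Perm β), Perm.sumCongr a b = Perm.sumCongrHom α β (a, b) :=
    fun _ _ => rfl
  rw [h, h, ← map_zpow]
  rfl

end

lemma N_add (s t : T) : N (s + t) = N s + N t := by
  unfold N
  rw [Multiset.map_add, Multiset.sum_add]

theorem main : S_NORM → S_SPLIT := by
  intro hN
  refine ⟨fun α β _ _ _ _ π ρ => tp_sum π ρ, ?_⟩
  intro α β _ _ _ _ π ρ f g
  have nmS : ∀ (a : Perm α) (b : Perm β), nm (Perm.sumCongr a b) = nm a + nm b := by
    intro a b
    rw [(hN (α ⊕ β) (Perm.sumCongr a b) 1).1, tp_sum, N_add, ← (hN α a 1).1, ← (hN β b 1).1]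
  unfold cv
  rw [← Finset.sum_product', Finset.univ_product_univ]
  symm
  refine Finset.sum_of_injOn (fun p : Perm α × Perm β => Perm.sumCongr p.1 p.2) ?_ ?_ ?_ ?_
  · intro p _ q _ h
    exact Perm.sumCongrHom_injective h
  · intro p _
    exact Finset.mem_coe.mpr (Finset.mem_univ _)
  · intro σ _ hσ
    rw [if_neg]
    intro hcond
    apply hσ
    have hmul : σ * (σ⁻¹ * Perm.sumCongr π ρ) = Perm.sumCongr π ρ := by group
    have h4 := (hN (α ⊕ β) σ (σ⁻¹ * Perm.sumCongr π ρ)).2.2.2 (by rw [hmul]; exact hcond.symm)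
    rw [hmul] at h4
    have hmaps : Set.MapsTo σ (Set.range (Sum.inl : α → α ⊕ β)) (Set.range Sum.inl) := by
      rintro _ ⟨a, rfl⟩
      obtain ⟨i, hi⟩ := h4 (Sum.inl a)
      rw [zpow_sum] at hi
      rw [← hi]
      exact ⟨(π ^ i) a, rfl⟩
    obtain ⟨p, hp⟩ := Perm.mem_sumCongrHom_range_of_perm_mapsTo_inl hmaps
    exact ⟨p, Finset.mem_coe.mpr (Finset.mem_univ _), hp⟩
  · rintro ⟨σ₁, σ₂⟩ _
    have hinv : (Perm.sumCongr σ₁ σ₂)⁻¹ * Perm.sumCongr π ρ =
        Perm.sumCongr (σ₁⁻¹ * π) (σ₂⁻¹ * ρ) := by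
      rw [Perm.sumCongr_inv, Perm.sumCongr_mul]
    simp only [hinv, nmS]
    have s1 := (hN α σ₁ (σ₁⁻¹ * π)).2.2.1
    have s2 := (hN β σ₂ (σ₂⁻¹ * ρ)).2.2.1
    rw [mul_inv_cancel_left] at s1 s2
    by_cases hc : nm σ₁ + nm (σ₁⁻¹ * π) = nm π ∧ nm σ₂ + nm (σ₂⁻¹ * ρ) = nm ρ
    · rw [if_pos hc, if_pos (by omega)]
    · rw [if_neg hc, if_neg (by omega)]

end Pool.Agent.R730.FHSplit
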